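import Pool.Agent.Lib.MP_210493_lc.DM.Clique

/-! The Hadwiger numbers of all excluded minors of the underlying class are bounded by a linear
function of the size of any excluded digraph. -/

namespace Pool.Agent.Results.MP_210493_lc.CliqueBound

open Pool.Agent.Lib.MP_210493_lc

theorem result (A : Set Code) (H : Code) (hH : H ∈ A) (V E : Type) [Finite V] [Finite E]
    (G : Gra V E) (hG : Excluded A G) :
    (∀ s : ℕ, H.v + 3 * H.e < s → ¬ GMinor (completeGra s) G) ∧
    (GMinor (dia H.arc) G → Nat.card V + Nat.card E = H.v + 7 * H.e) :=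
  ⟨clique_bound hH hG, size_of_dia_minor hH hG⟩

end Pool.Agent.Results.MP_210493_lc.CliqueBound
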