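import Pool.Agent.Lib.MP_210493_lc.DM.Main

/-! Classes of graphs closed under minors and diamonds contain an excluded minor of the underlying
class exactly if they contain the underlying graph of an excluded digraph. -/

namespace Pool.Agent.Results.MP_210493_lc.DiamondTransfer

open Pool.Agent.Lib.MP_210493_lc

theorem result (A : Set Code) :
    (∀ P : (V E : Type) → Gra V E → Prop, MinorClosed P → DiamondClosed P → Detects A P) ∧
    (∀ t : ℕ, 5 ≤ t → Detects A fun _ _ G => ¬ GMinor (completeGra t) G) ∧
    (∀ w : ℕ, 3 ≤ w → Detects A fun _ _ G => TreeWidthLE w G) :=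
  main_diamond A

end Pool.Agent.Results.MP_210493_lc.DiamondTransfer
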