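import Pool.Agent.Lib.MP_210493_lc.DG.Final

/-! Excluded minors of underlying classes of digraph classes: the size of an excluded minor is
bounded by a primitive recursive function of the largest size of an excluded digraph and of the
size of its largest grid minor. -/

namespace Pool.Agent.Results.MP_210493_lc.GridBound

open Pool.Agent.Lib.MP_210493_lc

theorem result : ∃ f : ℕ → ℕ → ℕ, Primrec₂ f ∧
    ∀ (n k : ℕ) (A : Set Code), (∀ H ∈ A, H.size ≤ n) →
    ∀ (V E : Type) [Finite V] [Finite E] (G : Gra V E), Excluded A G →
      ¬ GMinor (grid k) G → Nat.card V + Nat.card E ≤ f n k := by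
  obtain ⟨f, hf, h⟩ := main
  exact ⟨f, hf, fun n k A hA V E _ _ G hG => (h n A hA V E G hG k).1⟩

end Pool.Agent.Results.MP_210493_lc.GridBound
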