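import Pool.Agent.Lib.MP_210493_lc.PL.Main

/-! Excluded minors of underlying classes of digraph classes: if some excluded digraph has a planar
underlying graph (a minor of some grid), the sizes of the excluded minors are bounded by a
primitive recursive function of the largest size of an excluded digraph. -/

namespace Pool.Agent.Results.MP_210493_lc.PlanarMember

open Pool.Agent.Lib.MP_210493_lc

theorem result : ∃ g : ℕ → ℕ, Primrec g ∧
    ∀ (n : ℕ) (A : Set Code), (∀ H ∈ A, H.size ≤ n) →
    (∃ H ∈ A, ∃ k, GMinor (und H.arc) (grid k)) →
    ∀ (V E : Type) [Finite V] [Finite E] (G : Gra V E), Excluded A G →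
      Nat.card V + Nat.card E ≤ g n :=
  main_planar

end Pool.Agent.Results.MP_210493_lc.PlanarMember
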